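import Mathlib
import Pool.Agent.Helper59.EI.Rank

set_option autoImplicit false

namespace Pool.Agent.Helper59.Old.BoundedTorsion

open Pool.Agent.Helper98.Engel Pool.Agent.Helper59.EI

universe u

/-- Let `n ≥ 0` and `m ≥ 1` and let `G` be a group in which, for every prime `p` dividing `m`, every
elementary abelian `p`-subgroup has finite rank (in particular, let `G` be a group of finite abelian
subgroup rank). Then the bounded left Engel elements `x` of `G` with `x ^ m = 1` and
`[y, x, ..., x] = 1` (`n` entries `x`) for all `y` are finite in number and generate a finite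
nilpotent normal subgroup. -/
theorem result (G : Type u) [Group G] (n m : ℕ) (hm : 0 < m)
    (hrk : ∀ p : ℕ, p.Prime → p ∣ m → ∀ A : Subgroup G, (∀ a ∈ A, a ^ p = 1) →
      (∀ a ∈ A, ∀ b ∈ A, a * b = b * a) → FinRank A) :
    ∃ N : Subgroup G, N = Subgroup.closure {x : G | x ^ m = 1 ∧ ∀ y : G, eng x n y = 1} ∧
      N.Normal ∧ (N : Set G).Finite ∧ Group.IsNilpotent N :=
  part2 (G := G) n m hm
    (fun p hp hpm A ha hc => finite_of_finRank hp ha hc (hrk p hp hpm A ha hc))

end Pool.Agent.Helper59.Old.BoundedTorsion
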