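import Mathlib
import Pool.Agent.Helper59.EI.ThinLP

set_option autoImplicit false

namespace Pool.Agent.Helper59.Old.TwoElements

open Pool.Agent.Helper98.Engel Pool.Agent.Helper59.EI

universe u

/-- Let `G` be a group in which every elementary abelian 2-subgroup has finite rank (in particular,
let `G` be a group of finite abelian subgroup rank). Then the 2-elements `x` of `G` for which
`x, x ^ 2, x ^ 4, ...` are left Engel elements (in particular, the left Engel elements of order 2)
form a normal subgroup `O`, which is a locally finite 2-group and locally nilpotent and contains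
all 2-elements of all locally nilpotent normal subgroups. So `O` is the set of all 2-elements of the
Hirsch-Plotkin radical. -/
theorem result (G : Type u) [Group G]
    (hrk : ∀ A : Subgroup G, (∀ a ∈ A, a * a = 1) → FinRank A) :
    ∃ O : Subgroup G,
      (∀ x : G, x ∈ O ↔ (∃ k : ℕ, x ^ 2 ^ k = 1) ∧ ∀ i : ℕ, IsLeftEngel (x ^ 2 ^ i)) ∧
      (∀ x : G, IsLeftEngel x → x * x = 1 → x ∈ O) ∧
      O.Normal ∧ LocallyNilpotent O ∧
      (∀ s : Set G, s.Finite → s ⊆ O → ((Subgroup.closure s : Subgroup G) : Set G).Finite) ∧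
      (∀ N : Subgroup G, N.Normal → LocallyNilpotent N → ∀ x ∈ N, (∃ k : ℕ, x ^ 2 ^ k = 1) →
        x ∈ O) := by
  have ht : Thin 2 G := by
    intro A h1 h2
    exact finite_of_finRank Nat.prime_two h1 h2 (hrk A (fun a ha => by
      rw [← pow_two]
      exact h1 a ha))
  have : Fact (Nat.Prime 2) := ⟨Nat.prime_two⟩
  obtain ⟨O, hN, hLP, -, hO⟩ := two_elements ht
  refine ⟨O, hO, ?_, hN, hLP.locNil, hLP.1, ?_⟩
  · intro x hx h2
    rw [hO]
    refine ⟨⟨1, by rw [pow_one, pow_two]; exact h2⟩, ?_⟩
    intro i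
    rcases Nat.eq_zero_or_pos i with h | h
    · rw [h, pow_zero, pow_one]
      exact hx
    · have h3 : x ^ 2 ^ i = 1 := by
        obtain ⟨j, rfl⟩ := Nat.exists_eq_succ_of_ne_zero h.ne'
        rw [pow_succ', pow_mul, pow_two, h2, one_pow]
      rw [h3]
      intro y
      exact ⟨1, by rw [eng_succ, eng_zero]; group⟩
  · intro N hNn hNl x hx h2
    rw [hO]
    exact ⟨h2, fun i => engel_of_locNil hNn hNl (N.pow_mem hx _)⟩

end Pool.Agent.Helper59.Old.TwoElements
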